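import Pool.Agent.helper78.EQ.Spec
import Pool.Agent.helper30.LD.J0
import Pool.Agent.helper97.LD.F0

/-!
# Module eq:NEX: near a zero that is not exposed there is a crowded window
-/

set_option autoImplicit false

open Complex MeasureTheory Set Metric

namespace Pool.Agent.EQ

open Pool.Agent.helper6.LD

theorem helper91_dz_finite (σ : ℝ) (k : ℕ) : (dz σ k).Finite := by
  have hb : Bornology.IsBounded ((Set.Icc σ 1) ×ℂ (Set.Icc (k : ℝ) ((k : ℝ) + 1))) :=
    (Metric.isBounded_Icc _ _).reProdIm (Metric.isBounded_Icc _ _)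
  refine (zeros_finite hb).subset ?_
  rintro ρ ⟨h0, h1, h2, h3⟩
  refine ⟨?_, h0⟩
  rw [Complex.mem_reProdIm]
  exact ⟨⟨h1, (h97_re_lt h0).le⟩, ⟨h2, h3⟩⟩

theorem helper91_loglog (κ : ℝ) (hκ : 0 < κ) :
    ∃ g : ℝ, 1 ≤ g ∧ ∀ x : ℝ, g ≤ x → Real.log (Real.log x) ≤ κ * Real.log x := by
  have h := (Real.isLittleO_log_id_atTop.comp_tendsto Real.tendsto_log_atTop).bound hκ
  obtain ⟨g, hg⟩ := Filter.eventually_atTop.1 h
  refine ⟨max g 1, le_max_right _ _, fun x hx => ?_⟩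
  have h1 := hg x (le_trans (le_max_left _ _) hx)
  have h2 : 0 ≤ Real.log x := Real.log_nonneg (le_trans (le_max_right _ _) hx)
  simp only [Function.comp_apply, id, Real.norm_eq_abs] at h1
  rw [abs_of_nonneg h2] at h1
  exact le_trans (le_abs_self _) h1

theorem helper91_cover (Z : Set ℂ) (hZ : Z.Finite) (K : Finset ℕ) (σ B : ℝ)
    (hc : ∀ s ∈ Z, ∃ k ∈ K, s ∈ dz σ k) (hB : ∀ k ∈ K, ((dz σ k).ncard : ℝ) ≤ B) :
    (Z.ncard : ℝ) ≤ (K.card : ℝ) * B := by
  classical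
  have hsub : hZ.toFinset ⊆ K.biUnion fun k => (helper91_dz_finite σ k).toFinset := by
    intro s hs
    obtain ⟨k, hk, hsk⟩ := hc s (hZ.mem_toFinset.1 hs)
    exact Finset.mem_biUnion.2 ⟨k, hk, (helper91_dz_finite σ k).mem_toFinset.2 hsk⟩
  have h1 : Z.ncard ≤ ∑ k ∈ K, (dz σ k).ncard := by
    rw [Set.ncard_eq_toFinset_card _ hZ]
    refine le_trans (Finset.card_le_card hsub) (le_trans Finset.card_biUnion_le ?_)
    refine Finset.sum_le_sum fun k _ => ?_
    rw [Set.ncard_eq_toFinset_card _ (helper91_dz_finite σ k)]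
  calc (Z.ncard : ℝ) ≤ ((∑ k ∈ K, (dz σ k).ncard : ℕ) : ℝ) := by exact_mod_cast h1
    _ = ∑ k ∈ K, ((dz σ k).ncard : ℝ) := by push_cast; rfl
    _ ≤ ∑ _k ∈ K, B := Finset.sum_le_sum hB
    _ = (K.card : ℝ) * B := by rw [Finset.sum_const, nsmul_eq_mul]

theorem helper91_card (g M : ℝ) (hM : 0 ≤ M) (hg : M + 3 ≤ g) :
    ((Finset.Icc ⌈g - (M + 1)⌉₊ ⌊g + (M + 1)⌋₊).card : ℝ) ≤ 2 * M + 3 := by
  rw [Nat.card_Icc]
  have h1 : g - (M + 1) ≤ (⌈g - (M + 1)⌉₊ : ℝ) := Nat.le_ceil _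
  have h2 : (⌊g + (M + 1)⌋₊ : ℝ) ≤ g + (M + 1) := Nat.floor_le (by linarith)
  rcases le_total ⌈g - (M + 1)⌉₊ (⌊g + (M + 1)⌋₊ + 1) with h | h
  · rw [Nat.cast_sub h]
    push_cast
    linarith
  · rw [Nat.sub_eq_zero_of_le h]
    push_cast
    linarith

/-- NEX. -/
theorem NEX : NEX_stmt := by
  intro lam M δ hlam hlam1 hM hδ hδ1
  have hM0 : 100 ≤ M := by
    have : (1 : ℝ) ≤ 1 / lam ^ 2 := by
      rw [le_div_iff₀ (by positivity), one_mul]
      exact pow_le_one₀ hlam.le hlam1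
    calc (100 : ℝ) ≤ 100 * (1 / lam ^ 2) := by linarith
      _ = 100 / lam ^ 2 := by ring
      _ ≤ M := hM
  obtain ⟨g, hg1, hg⟩ := helper91_loglog (lam * δ) (by positivity)
  refine ⟨lam * δ / (2 * M + 3), max g (M + 3), by positivity, le_trans hg1 (le_max_left _ _), ?_⟩
  intro ρ hρ hre him hne
  have hγg : g ≤ ρ.im := le_trans (le_max_left _ _) him
  have hγM : M + 3 ≤ ρ.im := le_trans (le_max_right _ _) him
  have hlog : 0 ≤ Real.log ρ.im := Real.log_nonneg (by linarith)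
  have hre1 := h97_re_lt hρ
  have hdist : dist ((M : ℂ) + (ρ.im : ℝ) * I) ρ = M - ρ.re := by
    rw [Complex.dist_eq]
    have : (M : ℂ) + (ρ.im : ℝ) * I - ρ = ((M - ρ.re : ℝ) : ℂ) := by
      apply Complex.ext <;> simp
    rw [this, Complex.norm_real, Real.norm_eq_abs, abs_of_nonneg (by linarith)]
  set Z : Set ℂ := {s : ℂ | s ∈ closedBall ((M : ℂ) + (ρ.im : ℝ) * I)
    (dist ((M : ℂ) + (ρ.im : ℝ) * I) ρ + δ) ∧ riemannZeta s = 0} with hZdef
  have hZcard : lam * δ * Real.log ρ.im < (Z.ncard : ℝ) := by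
    by_contra hcon
    push Not at hcon
    refine hne ⟨ρ.im, δ, ?_, hδ1, hg _ hγg, hcon⟩
    rw [sub_self]
    have : 0 ≤ lam * M / 4 := by positivity
    simpa using this
  have hZfin : Z.Finite := zeros_finite isBounded_closedBall
  by_contra hcon
  push Not at hcon
  have hB := helper91_cover Z hZfin (Finset.Icc ⌈ρ.im - (M + 1)⌉₊ ⌊ρ.im + (M + 1)⌋₊) (ρ.re - δ)
    (lam * δ / (2 * M + 3) * Real.log ρ.im) ?_ ?_
  · have hc := helper91_card ρ.im M (by linarith) hγM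
    have h2 : (Z.ncard : ℝ) ≤ (2 * M + 3) * (lam * δ / (2 * M + 3) * Real.log ρ.im) :=
      le_trans hB (mul_le_mul_of_nonneg_right hc (by positivity))
    have h3 : (2 * M + 3) * (lam * δ / (2 * M + 3) * Real.log ρ.im) = lam * δ * Real.log ρ.im := by
      field_simp
    rw [h3] at h2
    linarith
  · rintro s ⟨hs, hs0⟩
    rw [mem_closedBall, Complex.dist_eq, hdist] at hs
    have hsre := le_trans (Complex.abs_re_le_norm _) hs
    have hsim := le_trans (Complex.abs_im_le_norm _) hs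
    simp only [sub_re, add_re, ofReal_re, mul_re, I_re, mul_zero, ofReal_im, I_im, mul_one,
      sub_im, add_im, mul_im, zero_add, add_zero, sub_self] at hsre hsim
    rw [abs_le] at hsre hsim
    have him0 : 0 ≤ s.im := by linarith [hsim.1]
    refine ⟨⌊s.im⌋₊, ?_, hs0, by linarith [hsre.1], Nat.floor_le him0,
      (Nat.lt_floor_add_one _).le⟩
    have h1 := Nat.floor_le him0
    have h2 := Nat.lt_floor_add_one s.im
    rw [Finset.mem_Icc]
    constructor
    · rw [Nat.ceil_le]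
      linarith [hsim.1]
    · rw [Nat.le_floor_iff (by linarith)]
      linarith [hsim.2]
  · intro k hk
    rw [Finset.mem_Icc, Nat.ceil_le, Nat.le_floor_iff (by linarith)] at hk
    refine (hcon k ?_).le
    rw [abs_le]
    constructor <;> linarith [hk.1, hk.2]

end Pool.Agent.EQ
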