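import Pool.Agent.helper78.EQ.Spec

/-!
# Module eq:SZ: zeta is small if the zeta sums are small
-/

set_option autoImplicit false

open Complex MeasureTheory Set Metric

namespace Pool.Agent.EQ

open Pool.Agent.helper6.LD

theorem helper91_SZ_final (ε C₁ C₂ X : ℝ) (hε : 0 < ε) (h1 : 0 < C₁) (h2 : 0 < C₂) (hX : 1 ≤ X)
    (hD : C₂ * (1 + 4 / ε) + 2 * C₁ < X ^ ε) :
    C₂ * X ^ ε * (1 + Real.log (X ^ 4)) + C₁ * 2 < X ^ (3 * ε) := by
  have hX0 : 0 < X := by linarith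
  have hXe : 1 ≤ X ^ ε := Real.one_le_rpow hX hε.le
  have hlog : Real.log X ≤ X ^ ε / ε := Real.log_le_rpow_div hX0.le hε
  have h3 : X ^ (3 * ε) = X ^ ε * X ^ ε * X ^ ε := by
    rw [← Real.rpow_add hX0, ← Real.rpow_add hX0]
    congr 1
    ring
  have h4 : 1 + Real.log (X ^ 4) ≤ X ^ ε * (1 + 4 / ε) := by
    rw [Real.log_pow]
    push_cast
    have : X ^ ε * (1 + 4 / ε) = X ^ ε + 4 * (X ^ ε / ε) := by ring
    rw [this]
    linarith
  have h5 : C₂ * X ^ ε * (1 + Real.log (X ^ 4)) ≤ C₂ * X ^ ε * (X ^ ε * (1 + 4 / ε)) :=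
    mul_le_mul_of_nonneg_left h4 (by positivity)
  have h6 : C₁ * 2 ≤ 2 * C₁ * (X ^ ε * X ^ ε) := by
    have : (1 : ℝ) ≤ X ^ ε * X ^ ε := by nlinarith
    nlinarith
  have h7 : C₂ * X ^ ε * (X ^ ε * (1 + 4 / ε)) + 2 * C₁ * (X ^ ε * X ^ ε) =
      X ^ ε * X ^ ε * (C₂ * (1 + 4 / ε) + 2 * C₁) := by ring
  rw [h3]
  have h8 : X ^ ε * X ^ ε * (C₂ * (1 + 4 / ε) + 2 * C₁) < X ^ ε * X ^ ε * X ^ ε :=
    mul_lt_mul_of_pos_left hD (by positivity)
  linarith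

theorem helper91_SZ_err (X t σ : ℝ) (hX : 3 ≤ X) (hσ0 : 1 / 2 ≤ σ) (hσ1 : σ ≤ 1)
    (ht : 8 * Real.log X ≤ t) (htX : t ≤ X) :
    X ^ 4 * Real.exp (-t) + ‖((σ : ℂ) + t * I)‖ * (X ^ 4) ^ (-(1 / 2 : ℝ)) ≤ 2 := by
  have hX0 : 0 < X := by linarith
  have hlog : 0 ≤ Real.log X := Real.log_nonneg (by linarith)
  have ht0 : 0 ≤ t := by linarith
  have h1 : X ^ 4 * Real.exp (-t) ≤ 1 := by
    have h2 : Real.exp (-t) ≤ Real.exp (-(8 * Real.log X)) := Real.exp_le_exp.2 (by linarith)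
    have h3 : X ^ 4 = Real.exp (4 * Real.log X) := by
      rw [mul_comm, Real.exp_mul, Real.exp_log hX0]
      norm_cast
    rw [h3]
    calc Real.exp (4 * Real.log X) * Real.exp (-t)
        ≤ Real.exp (4 * Real.log X) * Real.exp (-(8 * Real.log X)) :=
          mul_le_mul_of_nonneg_left h2 (Real.exp_pos _).le
      _ = Real.exp (-(4 * Real.log X)) := by rw [← Real.exp_add]; congr 1; ring
      _ ≤ 1 := by rw [Real.exp_le_one_iff]; linarith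
  have h4 : (X ^ 4) ^ (-(1 / 2 : ℝ)) = (X ^ 2)⁻¹ := by
    have : X ^ 4 = (X ^ 2) ^ (2 : ℝ) := by
      rw [← Real.rpow_natCast X 2, ← Real.rpow_mul hX0.le, ← Real.rpow_natCast X 4]
      norm_num
    rw [this, ← Real.rpow_mul (by positivity)]
    norm_num
    rw [Real.rpow_neg_one]
  have h5 : ‖((σ : ℂ) + t * I)‖ ≤ 2 * X := by
    calc ‖((σ : ℂ) + t * I)‖ ≤ ‖(σ : ℂ)‖ + ‖(t : ℂ) * I‖ := norm_add_le _ _
      _ = |σ| + |t| := by
        rw [norm_mul, Complex.norm_I, mul_one, Complex.norm_real, Complex.norm_real,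
          Real.norm_eq_abs, Real.norm_eq_abs]
      _ ≤ 2 * X := by
        rw [abs_of_nonneg (by linarith), abs_of_nonneg ht0]
        linarith
  have h6 : ‖((σ : ℂ) + t * I)‖ * (X ^ 4) ^ (-(1 / 2 : ℝ)) ≤ 1 := by
    rw [h4, ← div_eq_mul_inv, div_le_one (by positivity)]
    nlinarith
  linarith

/-- SZ. -/
theorem SZ (hZPS : ZPS_stmt) (hSZ0 : SZ0_stmt) (hCXS : CXS_stmt) : SZ_stmt := by
  intro ε hε
  obtain ⟨C₁, hC₁, hz⟩ := hZPS
  obtain ⟨C₂, hC₂, hs⟩ := hSZ0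
  obtain ⟨X₁, K₁, hX₁, hK₁, hc⟩ := hCXS ε hε
  set D : ℝ := C₂ * (1 + 4 / ε) + 2 * C₁ with hD
  have hDpos : 0 < D := by positivity
  refine ⟨max X₁ ((D + 1) ^ (1 / ε)), max K₁ 4, le_trans hX₁ (le_max_left _ _),
    le_trans hK₁ (le_max_left _ _), ?_⟩
  intro X σ t hX hσ0 hσ1 ht htX hN
  have hX1 : X₁ ≤ X := le_trans (le_max_left _ _) hX
  have hX3 : 3 ≤ X := le_trans hX₁ hX1
  have hX0 : 0 < X := by linarith
  have hlog : 0 ≤ Real.log X := Real.log_nonneg (by linarith)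
  have hlog1 : 1 ≤ Real.log X := by
    rw [Real.le_log_iff_exp_le hX0]
    exact le_trans Real.exp_one_lt_three.le hX3
  have ht1 : 2 * K₁ * Real.log X ≤ t := by
    refine le_trans ?_ ht
    exact mul_le_mul_of_nonneg_right (by linarith [le_max_left K₁ 4]) hlog
  have ht8 : 8 * Real.log X ≤ t := by
    refine le_trans ?_ ht
    exact mul_le_mul_of_nonneg_right (by linarith [le_max_right K₁ 4]) hlog
  have hXe : 1 ≤ X ^ ε := Real.one_le_rpow (by linarith) hε.le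
  have hDX : D < X ^ ε := by
    have h1 : ((D + 1) ^ (1 / ε)) ^ ε ≤ X ^ ε :=
      Real.rpow_le_rpow (by positivity) (le_trans (le_max_right _ _) hX) hε.le
    rw [← Real.rpow_mul (by positivity), one_div, inv_mul_cancel₀ hε.ne', Real.rpow_one] at h1
    linarith
  have hS : ∀ x : ℝ, 1 ≤ x → x ≤ X ^ 4 → ‖S c1 x t‖ ≤ x ^ σ * X ^ ε := by
    intro x hx1 hx4
    rcases le_total x X with hxX | hxX
    · exact hN x hx1 hxX
    · refine le_trans (hc X t x hX1 ht1 htX hxX hx4) ?_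
      exact mul_le_mul_of_nonneg_right (Real.rpow_le_rpow_of_exponent_le hx1 hσ0) (by positivity)
  have hA := hs σ t (X ^ 4) (X ^ ε) hσ0 hσ1 (one_le_pow₀ (by linarith)) hXe hS
  have hB := hz ((σ : ℂ) + t * I) (X ^ 4) (by simpa using hσ0) (by simpa using hσ1)
    (by simp; linarith) (one_le_pow₀ (by linarith))
  have him : ((σ : ℂ) + t * I).im = t := by simp
  rw [him] at hB
  have hE := helper91_SZ_err X t σ hX3 hσ0 hσ1 ht8 htX
  have hF := helper91_SZ_final ε C₁ C₂ X hε hC₁ hC₂ (by linarith) hDX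
  set Q : ℂ := ∑' n : ℕ, c1 n * ((Real.exp (-((n : ℝ) / X ^ 4)) : ℝ) : ℂ) *
    (n : ℂ) ^ (-((σ : ℂ) + t * I)) with hQ
  have h1 : ‖riemannZeta ((σ : ℂ) + t * I)‖ ≤ ‖Q‖ + ‖Q - riemannZeta ((σ : ℂ) + t * I)‖ := by
    have : riemannZeta ((σ : ℂ) + t * I) = Q - (Q - riemannZeta ((σ : ℂ) + t * I)) := by ring
    calc ‖riemannZeta ((σ : ℂ) + t * I)‖ = ‖Q - (Q - riemannZeta ((σ : ℂ) + t * I))‖ := by
          rw [← this]
      _ ≤ _ := norm_sub_le _ _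
  have h2 : ‖Q - riemannZeta ((σ : ℂ) + t * I)‖ ≤ C₁ * 2 :=
    le_trans hB (mul_le_mul_of_nonneg_left hE hC₁.le)
  linarith

end Pool.Agent.EQ
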