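import Pool.Agent.helper78.EQ.Spec2
import Pool.Agent.helper31.EQ.I4

/-! # Project EQ: module AR2 -/

set_option autoImplicit false

open Complex MeasureTheory Set Metric

namespace Pool.Agent.EQ

open Pool.Agent.helper6.LD

theorem AR2 (hNEX : NEX_stmt) (hZTR : ZTR_stmt) (hEXP : EXP_stmt) : AR2_stmt := by
  intro δ η hδ hδ4 hη
  obtain ⟨C₀, hC₀, hZ⟩ := hZTR
  obtain ⟨lam, hlam, hlam1, hlamη⟩ := helper31_lam hη
  set M : ℝ := 100 / lam ^ 2 with hM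
  have hM0 : 0 < M := by positivity
  set δ₁ : ℝ := min δ (1 / 16) with hδ₁
  have hδ₁0 : 0 < δ₁ := by positivity
  have hδ₁a : δ₁ ≤ δ := min_le_left _ _
  have hδ₁b : δ₁ ≤ 1 / 16 := min_le_right _ _
  set κ : ℝ := η / 2 with hκ
  have hκ0 : 0 < κ := by positivity
  obtain ⟨c, γ₀, hc, hγ₀, hN⟩ := hNEX lam M δ₁ hlam hlam1 le_rfl hδ₁0 hδ₁b
  obtain ⟨B, hB, hE⟩ := hEXP lam M hlam hlam1 le_rfl
  have hlM : 0 ≤ Real.log (3 * M + 10) := Real.log_nonneg (by linarith)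
  -- the constants
  set C₁ : ℝ := C₀ * (2 * M + 6) * (Real.log (3 * M + 10) + 1) / η with hC₁
  have hC₁0 : 0 < C₁ := by positivity
  set C : ℝ := (M + 6) + B + 2 * C₀ * γ₀ ^ 2 + C₁ with hC
  have hg0 : 0 ≤ 2 * C₀ * γ₀ ^ 2 := by positivity
  have hCpos : 0 < C := by positivity
  have hCM : M + 6 ≤ C := by rw [hC]; linarith
  have hCa : B + 2 * C₀ * γ₀ ^ 2 ≤ C := by rw [hC]; linarith
  have hCb : C₁ ≤ C := by rw [hC]; linarith
  have hl2C : 0 ≤ Real.log (1 + 2 * C) := Real.log_nonneg (by linarith)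
  set ε' : ℝ := c * κ / (1 + Real.log (1 + 2 * C)) with hε'
  have hε'0 : 0 < ε' := by positivity
  refine ⟨ε', C, hε'0, hCpos, ?_⟩
  intro σ T H hσ hσ1 hT hH
  have hσh : 1 / 2 ≤ σ := by linarith
  set X : ℝ := T + H + 2 with hX
  have hX3 : 3 ≤ X := by linarith
  have hX0 : 0 < X := by linarith
  have hlogX : 1 ≤ Real.log X := by
    rw [Real.le_log_iff_exp_le hX0]
    have := Real.exp_one_lt_d9
    linarith
  have hXη : 1 ≤ X ^ η := Real.one_le_rpow (by linarith) hη.le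
  have hHE : 1 ≤ H ^ (2 * (1 - σ)) := Real.one_le_rpow hH (by linarith)
  set T' : ℝ := max (T - C) 0 with hT'
  set H' : ℝ := H + 2 * C with hH'
  have hT'0 : 0 ≤ T' := le_max_right _ _
  have hT'T : T' ≤ T := max_le (by linarith) hT
  have hT'1 : T - C ≤ T' := le_max_left _ _
  set B' : ℝ := Cr ε' (σ - δ) T' H' with hB'def
  have hB' : 0 ≤ B' := by
    rw [hB'def]
    unfold Cr
    positivity
  have hXX' : T' + H' + 2 ≤ (1 + 2 * C) * X := by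
    have : 2 * C * 1 ≤ 2 * C * X := mul_le_mul_of_nonneg_left (by linarith) (by linarith)
    rw [hH']
    linarith
  have hlogXX' : Real.log (T' + H' + 2) ≤ (1 + Real.log (1 + 2 * C)) * Real.log X := by
    have h1 := Real.log_le_log (by linarith) hXX'
    rw [Real.log_mul (by linarith) hX0.ne'] at h1
    nlinarith
  set Y : ℝ := max γ₀ (X ^ κ) with hY
  have hY1 : 1 ≤ Y := hγ₀.trans (le_max_left _ _)
  have hXκ : 1 ≤ X ^ κ := Real.one_le_rpow (by linarith) hκ0.le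
  have hYle : Y ≤ γ₀ * X ^ κ := by
    refine max_le ?_ ?_
    · exact le_mul_of_one_le_right (by linarith) hXκ
    · exact le_mul_of_one_le_left (by linarith) hγ₀
  -- the crowded windows
  have hKfin' : {k : ℕ | k ∈ wins T' H' ∧
      ε' * Real.log (T' + H' + 2) ≤ ((dz (σ - δ) k).ncard : ℝ)}.Finite := by
    refine (Set.finite_Iic ⌊T' + H'⌋₊).subset ?_
    rintro k ⟨⟨-, h⟩, -⟩
    exact Nat.le_floor h
  have hKfin : {k : ℕ | (k ∈ wins T' H' ∧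
      ε' * Real.log (T' + H' + 2) ≤ ((dz (σ - δ) k).ncard : ℝ)) ∧
      (k : ℝ) ≤ T + H + M + 3}.Finite := hKfin'.subset fun k hk => hk.1
  set K : Finset ℕ := hKfin.toFinset with hK
  have hKcard : (K.card : ℝ) ≤ B' := by
    rw [hB'def, hK, ← Set.ncard_eq_toFinset_card _ hKfin]
    unfold Cr
    have hsub : {k : ℕ | (k ∈ wins T' H' ∧
        ε' * Real.log (T' + H' + 2) ≤ ((dz (σ - δ) k).ncard : ℝ)) ∧
        (k : ℝ) ≤ T + H + M + 3} ⊆ {k : ℕ | k ∈ wins T' H' ∧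
        ε' * Real.log (T' + H' + 2) ≤ ((dz (σ - δ) k).ncard : ℝ)} := fun k hk => hk.1
    exact_mod_cast Set.ncard_le_ncard hsub hKfin'
  -- the covering
  set P1 : Set ℂ := {ρ : ℂ | σ ≤ ρ.re ∧ T < ρ.im ∧ ρ.im ≤ T + H ∧ riemannZeta ρ = 0 ∧
    Exposed lam M ρ} with hP1
  set P2 : Set ℂ := {ρ : ℂ | 1 / 2 ≤ ρ.re ∧ ρ.re ≤ 1 ∧ 0 ≤ ρ.im ∧ ρ.im ≤ 0 + Y} with hP2
  set P3 : ℕ → Set ℂ := fun k => {ρ : ℂ | 1 / 2 ≤ ρ.re ∧ ρ.re ≤ 1 ∧
    max ((k : ℝ) - M - 3) 0 ≤ ρ.im ∧ ρ.im ≤ max ((k : ℝ) - M - 3) 0 + (2 * M + 6)} with hP3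
  have hb1 : Bornology.IsBounded P1 := by
    refine (helper31_box_bounded σ 1 T (T + H)).subset ?_
    rintro ρ ⟨h1, h2, h3, h4, -⟩
    exact ⟨h1, helper31_re_le h4, h2.le, h3⟩
  have hb2 : Bornology.IsBounded P2 := helper31_box_bounded _ _ _ _
  have hb3 : ∀ k ∈ K, Bornology.IsBounded (P3 k) := fun k _ => helper31_box_bounded _ _ _ _
  have hbU : Bornology.IsBounded (⋃ k ∈ K, P3 k) :=
    (Bornology.isBounded_biUnion_finset K).2 hb3
  have hcov : {ρ : ℂ | σ ≤ ρ.re ∧ T < ρ.im ∧ ρ.im ≤ T + H ∧ riemannZeta ρ = 0} ⊆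
      (P1 ∪ P2) ∪ ⋃ k ∈ K, P3 k := by
    rintro ρ ⟨h1, h2, h3, h4⟩
    have hre := helper31_re_le h4
    by_cases hexp : Exposed lam M ρ
    · exact Or.inl (Or.inl ⟨h1, h2, h3, h4, hexp⟩)
    by_cases hYρ : ρ.im ≤ Y
    · exact Or.inl (Or.inr ⟨hσh.trans h1, hre, by linarith, by linarith⟩)
    push Not at hYρ
    obtain ⟨k, hk1, hk2⟩ := hN ρ h4 (hσh.trans h1) ((le_max_left _ _).trans hYρ.le) hexp
    have hk1' := abs_le.mp hk1
    refine Or.inr ?_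
    rw [Set.mem_iUnion₂]
    refine ⟨k, ?_, hσh.trans h1, hre, ?_, ?_⟩
    · rw [hK, Set.Finite.mem_toFinset]
      have hk0 : (0 : ℝ) ≤ k := Nat.cast_nonneg k
      refine ⟨⟨⟨max_le (by linarith) (by linarith), by rw [hH']; linarith⟩, ?_⟩, by linarith⟩
      have hsub : (dz (ρ.re - δ₁) k).ncard ≤ (dz (σ - δ) k).ncard := by
        refine Set.ncard_le_ncard ?_ (helper31_dz_finite _ (by linarith) _)
        rintro z ⟨a, b, c, d⟩
        exact ⟨a, by linarith, c, d⟩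
      have hsubR : ((dz (ρ.re - δ₁) k).ncard : ℝ) ≤ ((dz (σ - δ) k).ncard : ℝ) := by
        exact_mod_cast hsub
      refine le_trans ?_ (hk2.trans hsubR)
      have hl1 : κ * Real.log X ≤ Real.log ρ.im := by
        rw [← Real.log_rpow hX0]
        exact Real.log_le_log (by positivity) ((le_max_right _ _).trans hYρ.le)
      calc ε' * Real.log (T' + H' + 2) ≤ ε' * ((1 + Real.log (1 + 2 * C)) * Real.log X) := by
            gcongr
        _ = c * (κ * Real.log X) := by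
            rw [hε']
            field_simp
        _ ≤ c * Real.log ρ.im := by gcongr
    · refine max_le (by linarith) (by linarith)
    · have : (k : ℝ) - M - 3 ≤ max ((k : ℝ) - M - 3) 0 := le_max_left _ _
      linarith
  have hz1 : Zer 0 σ T H ≤ (zc P1 : ℝ) + (zc P2 : ℝ) + ∑ k ∈ K, (zc (P3 k) : ℝ) := by
    have e1 : zc {ρ : ℂ | σ ≤ ρ.re ∧ T < ρ.im ∧ ρ.im ≤ T + H} =
        zc {ρ : ℂ | σ ≤ ρ.re ∧ T < ρ.im ∧ ρ.im ≤ T + H ∧ riemannZeta ρ = 0} := by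
      apply h30_zc_congr
      intro ρ hρ
      constructor
      · rintro ⟨a, b, c⟩; exact ⟨a, b, c, hρ⟩
      · rintro ⟨a, b, c, -⟩; exact ⟨a, b, c⟩
    have e2 : zc {ρ : ℂ | σ ≤ ρ.re ∧ T < ρ.im ∧ ρ.im ≤ T + H} ≤
        zc P1 + zc P2 + ∑ k ∈ K, zc (P3 k) := by
      rw [e1]
      refine (zc_mono hcov ((hb1.union hb2).union hbU)).trans ?_
      refine (h30_zc_union_le (hb1.union hb2) hbU).trans ?_
      exact add_le_add (h30_zc_union_le hb1 hb2) (zc_union_le K P3 hb3)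
    unfold Zer
    exact_mod_cast e2
  -- first part
  have hq1 : (zc P1 : ℝ) ≤ B * X ^ η * H ^ (2 * (1 - σ)) := by
    have h1 := hE σ T H hσh hσ1 hT hH
    have h2 : (T + H) ^ (20 * lam * Real.log (Real.exp 1 / lam)) ≤ X ^ η := by
      calc (T + H) ^ (20 * lam * Real.log (Real.exp 1 / lam)) ≤ (T + H) ^ η :=
            Real.rpow_le_rpow_of_exponent_le (by linarith) hlamη
        _ ≤ X ^ η := Real.rpow_le_rpow (by linarith) (by linarith) hη.le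
    calc (zc P1 : ℝ) ≤ B * H ^ (2 * (1 - σ)) *
          (T + H) ^ (20 * lam * Real.log (Real.exp 1 / lam)) := h1
      _ ≤ B * H ^ (2 * (1 - σ)) * X ^ η := by gcongr
      _ = B * X ^ η * H ^ (2 * (1 - σ)) := by ring
  -- second part
  have hq2 : (zc P2 : ℝ) ≤ 2 * C₀ * γ₀ ^ 2 * X ^ η := by
    have h0 : zc P2 ≤ zc {ρ : ℂ | 1 / 2 ≤ ρ.re ∧ 0 ≤ ρ.im ∧ ρ.im ≤ 0 + Y} :=
      helper31_zc_le (fun ρ hρ _ => ⟨hρ.1, hρ.2.2.1, hρ.2.2.2⟩)
    have h1 : (zc P2 : ℝ) ≤ C₀ * Y * Real.log (0 + Y + 2) :=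
      (Nat.cast_le.mpr h0).trans (hZ 0 Y le_rfl hY1)
    have h2 : Real.log (0 + Y + 2) ≤ 2 * Y := by
      have h3 := Real.log_le_sub_one_of_pos (show 0 < 0 + Y + 2 by linarith)
      linarith
    have h3 : Y * Y ≤ (γ₀ * X ^ κ) * (γ₀ * X ^ κ) :=
      mul_le_mul hYle hYle (by linarith) (by positivity)
    have h4 : X ^ κ * X ^ κ = X ^ η := by
      rw [← Real.rpow_add hX0, hκ]
      congr 1
      ring
    calc (zc P2 : ℝ) ≤ C₀ * Y * Real.log (0 + Y + 2) := h1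
      _ ≤ C₀ * Y * (2 * Y) := by gcongr
      _ = 2 * C₀ * (Y * Y) := by ring
      _ ≤ 2 * C₀ * ((γ₀ * X ^ κ) * (γ₀ * X ^ κ)) := by gcongr
      _ = 2 * C₀ * γ₀ ^ 2 * (X ^ κ * X ^ κ) := by ring
      _ = 2 * C₀ * γ₀ ^ 2 * X ^ η := by rw [h4]
  -- third part
  have hq3 : ∀ k ∈ K, (zc (P3 k) : ℝ) ≤ C₁ * X ^ η := by
    intro k hk
    rw [hK, Set.Finite.mem_toFinset] at hk
    obtain ⟨-, hk2⟩ := hk
    have h0 : zc (P3 k) ≤ zc {ρ : ℂ | 1 / 2 ≤ ρ.re ∧ max ((k : ℝ) - M - 3) 0 ≤ ρ.im ∧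
        ρ.im ≤ max ((k : ℝ) - M - 3) 0 + (2 * M + 6)} :=
      helper31_zc_le (fun ρ hρ _ => ⟨hρ.1, hρ.2.2.1, hρ.2.2.2⟩)
    have hmax0 : 0 ≤ max ((k : ℝ) - M - 3) 0 := le_max_right _ _
    have h1 : (zc (P3 k) : ℝ) ≤
        C₀ * (2 * M + 6) * Real.log (max ((k : ℝ) - M - 3) 0 + (2 * M + 6) + 2) :=
      (Nat.cast_le.mpr h0).trans (hZ _ _ hmax0 (by linarith))
    have hk0 : (0 : ℝ) ≤ k := Nat.cast_nonneg k
    have hmax1 : max ((k : ℝ) - M - 3) 0 ≤ k := max_le (by linarith) hk0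
    have h2 : max ((k : ℝ) - M - 3) 0 + (2 * M + 6) + 2 ≤ (3 * M + 10) * X := by
      have h3 : (3 * M + 9) * 1 ≤ (3 * M + 9) * X :=
        mul_le_mul_of_nonneg_left (by linarith) (by linarith)
      linarith
    have h3 : Real.log (max ((k : ℝ) - M - 3) 0 + (2 * M + 6) + 2) ≤
        (Real.log (3 * M + 10) + 1) * Real.log X := by
      have h4 := Real.log_le_log (by linarith) h2
      rw [Real.log_mul (by linarith) hX0.ne'] at h4
      nlinarith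
    have h5 := Real.log_le_rpow_div hX0.le hη
    calc (zc (P3 k) : ℝ) ≤
          C₀ * (2 * M + 6) * Real.log (max ((k : ℝ) - M - 3) 0 + (2 * M + 6) + 2) := h1
      _ ≤ C₀ * (2 * M + 6) * ((Real.log (3 * M + 10) + 1) * Real.log X) := by gcongr
      _ ≤ C₀ * (2 * M + 6) * ((Real.log (3 * M + 10) + 1) * (X ^ η / η)) := by gcongr
      _ = C₁ * X ^ η := by rw [hC₁]; ring
  have hq3' : ∑ k ∈ K, (zc (P3 k) : ℝ) ≤ B' * (C₁ * X ^ η) := by
    calc ∑ k ∈ K, (zc (P3 k) : ℝ) ≤ ∑ _k ∈ K, C₁ * X ^ η := Finset.sum_le_sum hq3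
      _ = K.card * (C₁ * X ^ η) := by rw [Finset.sum_const, nsmul_eq_mul]
      _ ≤ B' * (C₁ * X ^ η) := by gcongr
  have hX0η : 0 < X ^ η := by linarith
  calc Zer 0 σ T H ≤ (zc P1 : ℝ) + (zc P2 : ℝ) + ∑ k ∈ K, (zc (P3 k) : ℝ) := hz1
    _ ≤ B * X ^ η * H ^ (2 * (1 - σ)) + 2 * C₀ * γ₀ ^ 2 * X ^ η + B' * (C₁ * X ^ η) := by
        linarith
    _ ≤ B * X ^ η * H ^ (2 * (1 - σ)) + 2 * C₀ * γ₀ ^ 2 * X ^ η * H ^ (2 * (1 - σ)) +
        B' * (C₁ * X ^ η) := by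
        have : 2 * C₀ * γ₀ ^ 2 * X ^ η * 1 ≤ 2 * C₀ * γ₀ ^ 2 * X ^ η * H ^ (2 * (1 - σ)) := by
          gcongr
        linarith
    _ = (B + 2 * C₀ * γ₀ ^ 2) * (X ^ η * H ^ (2 * (1 - σ))) + C₁ * (X ^ η * B') := by ring
    _ ≤ C * (X ^ η * H ^ (2 * (1 - σ))) + C * (X ^ η * B') := by gcongr
    _ = C * X ^ η * (H ^ (2 * (1 - σ)) + B') := by ring

end Pool.Agent.EQ
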